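import Pool.Agent.KS6_44.TK.Sharp

/-!
# The inequality of coloured complexes
-/

set_option autoImplicit false

namespace Pool.Agent.KS6_44.TK

open Finset Polynomial
open Pool.Agent.Q142.TG

theorem fact_le (k : ℕ) : (k + 1).factorial ≤ (k + 1) ^ k := by
  induction k with
  | zero => simp
  | succ k ih =>
    rw [Nat.factorial_succ (k + 1)]
    calc (k + 1 + 1) * (k + 1).factorial ≤ (k + 1 + 1) * (k + 1) ^ k := Nat.mul_le_mul_left _ ih
      _ ≤ (k + 1 + 1) * (k + 1 + 1) ^ k := Nat.mul_le_mul_left _ (Nat.pow_le_pow_left (by omega) k)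
      _ = _ := by ring

theorem pow_le_fc (y k : ℕ) : (y + 1) ^ k ≤ k.factorial * (y + k).choose k := by
  rw [← Nat.ascFactorial_eq_factorial_mul_choose]
  exact Nat.pow_succ_le_ascFactorial _ _

/-- the bound by products of binomial coefficients -/
theorem key_num (κ C0 C1 y L g : ℕ) (hC : C1 = (y + (κ + 1)).choose (κ + 1)) (hL : C0 * C1 ≤ L)
    (hg : L ≤ (κ + 1) * g) : C0 * (y + 1) ^ (κ + 1) ≤ g * (κ + 1) ^ (κ + 1) := by
  have h1 := pow_le_fc y (κ + 1)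
  have h2 := fact_le κ
  rw [← hC] at h1
  calc C0 * (y + 1) ^ (κ + 1) ≤ C0 * ((κ + 1).factorial * C1) := Nat.mul_le_mul_left _ h1
    _ = (κ + 1).factorial * (C0 * C1) := by ring
    _ ≤ (κ + 1) ^ κ * ((κ + 1) * g) := Nat.mul_le_mul h2 (hL.trans hg)
    _ = _ := by ring

theorem two_pow_ge (x : ℕ) : x + 1 ≤ 2 ^ x := by
  induction x with
  | zero => simp
  | succ x ih => rw [pow_succ]; omega

theorem four_pow_ge (x : ℕ) (hx : 1 ≤ x) : (x + 3) * (x + 1) ≤ 2 * 4 ^ x := by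
  induction x, hx using Nat.le_induction with
  | base => norm_num
  | succ x hx ih => rw [pow_succ]; nlinarith

theorem ch_le (n κ y : ℕ) (h : n = y + (κ + 1)) : n.choose (κ + 1) ≤ n.choose κ * (y + 1) := by
  have h1 := Nat.choose_succ_right_eq n κ
  have h2 : n - κ = y + 1 := by omega
  rw [h2] at h1
  calc n.choose (κ + 1) ≤ n.choose (κ + 1) * (κ + 1) := Nat.le_mul_of_pos_right _ (by omega)
    _ = _ := h1

/-- even dimension -/
theorem even_bound (κ x g : ℕ)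
    (hg : (2 * (x + (κ + 1))).choose κ * (2 * (x + (κ + 1)) - (κ + 1) - 1).choose κ *
      2 ^ (2 * x) ≤ (κ + 1) * g) (hx : 1 ≤ x) :
    (x + (κ + 1)).choose (κ + 1) * (x + 1) ^ (κ + 1) ≤ g * (κ + 1) ^ (κ + 1) := by
  refine key_num κ _ _ x _ g rfl ?_ hg
  have h1 := ch_le (x + (κ + 1)) κ x rfl
  have h2 := two_pow_ge x
  have h3 : (x + (κ + 1)).choose (κ + 1) ≤ (x + (κ + 1)).choose κ * 2 ^ x :=
    h1.trans (Nat.mul_le_mul_left _ h2)
  have h4 : (x + (κ + 1)).choose κ ≤ (2 * (x + (κ + 1))).choose κ := Nat.choose_le_choose _ (by omega)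
  have h5 : (x + (κ + 1)).choose κ ≤ (2 * (x + (κ + 1)) - (κ + 1) - 1).choose κ :=
    Nat.choose_le_choose _ (by omega)
  calc (x + (κ + 1)).choose (κ + 1) * (x + (κ + 1)).choose (κ + 1) ≤
      ((x + (κ + 1)).choose κ * 2 ^ x) * ((x + (κ + 1)).choose κ * 2 ^ x) := Nat.mul_le_mul h3 h3
    _ = (x + (κ + 1)).choose κ * (x + (κ + 1)).choose κ * 2 ^ (2 * x) := by
        rw [two_mul x, pow_add]; ring
    _ ≤ _ := Nat.mul_le_mul_right _ (Nat.mul_le_mul h4 h5)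

/-- odd dimension -/
theorem odd_bound (κ x g : ℕ)
    (hg : (2 * (x + (κ + 1)) + 1).choose κ * (2 * (x + (κ + 1)) + 1 - (κ + 1) - 1).choose κ *
      2 ^ (2 * x + 1) ≤ (κ + 1) * g) (hx : 1 ≤ x) :
    (x + (κ + 1)).choose (κ + 1) * (x + 3) ^ (κ + 1) ≤ g * (κ + 1) ^ (κ + 1) := by
  refine key_num κ _ _ (x + 2) _ g rfl ?_ hg
  have h1 := ch_le (x + (κ + 1)) κ x rfl
  have h1' := ch_le (x + 2 + (κ + 1)) κ (x + 2) rfl
  have h2 := four_pow_ge x hx
  have e4 : (2 : ℕ) ^ (2 * x + 1) = 2 * 4 ^ x := by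
    rw [pow_succ, pow_mul, show (2 : ℕ) ^ 2 = 4 from rfl, mul_comm]
  have h4 : (x + 2 + (κ + 1)).choose κ ≤ (2 * (x + (κ + 1)) + 1).choose κ :=
    Nat.choose_le_choose _ (by omega)
  have h5 : (x + (κ + 1)).choose κ ≤ (2 * (x + (κ + 1)) + 1 - (κ + 1) - 1).choose κ :=
    Nat.choose_le_choose _ (by omega)
  calc (x + (κ + 1)).choose (κ + 1) * (x + 2 + (κ + 1)).choose (κ + 1) ≤
      ((x + (κ + 1)).choose κ * (x + 1)) * ((x + 2 + (κ + 1)).choose κ * (x + 2 + 1)) :=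
        Nat.mul_le_mul h1 h1'
    _ = (x + 2 + (κ + 1)).choose κ * (x + (κ + 1)).choose κ * ((x + 3) * (x + 1)) := by ring
    _ ≤ (x + 2 + (κ + 1)).choose κ * (x + (κ + 1)).choose κ * (2 * 4 ^ x) := Nat.mul_le_mul_left _ h2
    _ = (x + 2 + (κ + 1)).choose κ * (x + (κ + 1)).choose κ * 2 ^ (2 * x + 1) := by
        rw [e4]
    _ ≤ _ := Nat.mul_le_mul_right _ (Nat.mul_le_mul h4 h5)

/-- the last step -/
theorem color_step (k x D g g' : ℕ) (hk : 1 ≤ k)
    (h1 : 4 * k * (k + 1) * g' ≤ D * g)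
    (h2 : (x + k).choose k * D ^ k ≤ g * (4 * k * x) ^ k) :
    g' ^ k * (x + k).choose k ^ (k + 1) ≤ g ^ (k + 1) * (x + k).choose (k + 1) ^ k := by
  have h3 : (x + k).choose k * x = (x + k).choose (k + 1) * (k + 1) := by
    have := Nat.choose_succ_right_eq (x + k) k
    rw [Nat.add_sub_cancel] at this
    exact this.symm
  have hpos : 0 < (4 * k * (k + 1)) ^ k := by positivity
  refine Nat.le_of_mul_le_mul_left ?_ hpos
  set c := (x + k).choose k with hc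
  set c' := (x + k).choose (k + 1) with hc'
  calc (4 * k * (k + 1)) ^ k * (g' ^ k * c ^ (k + 1)) = (4 * k * (k + 1) * g') ^ k * c ^ (k + 1) := by
        rw [mul_pow (4 * k * (k + 1)) g']; ring
    _ ≤ (D * g) ^ k * c ^ (k + 1) := Nat.mul_le_mul_right _ (Nat.pow_le_pow_left h1 k)
    _ = g ^ k * c ^ k * (c * D ^ k) := by rw [mul_pow]; ring
    _ ≤ g ^ k * c ^ k * (g * (4 * k * x) ^ k) := Nat.mul_le_mul_left _ h2
    _ = g ^ (k + 1) * (4 * k * (c * x)) ^ k := by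
        have e : 4 * k * (c * x) = c * (4 * k * x) := by ring
        rw [e, mul_pow c]; ring
    _ = g ^ (k + 1) * (4 * k * (k + 1) * c') ^ k := by
        rw [h3]
        have e : 4 * k * (c' * (k + 1)) = 4 * k * (k + 1) * c' := by ring
        rw [e]
    _ = _ := by rw [mul_pow (4 * k * (k + 1)) c']; ring

/-- **The inequality of `⌊d/2⌋`-coloured complexes.** -/
theorem color (d k : ℕ) (a b : ℤ) (hk : 1 ≤ k) (hkd : k + 1 ≤ d / 2) (ha : 0 ≤ a) (hb : 0 ≤ b)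
    (h1 : 4 * (k : ℤ) * (k + 1) * b ≤ ((d : ℤ) - 2 * k) * (d - 2 * k + 2) * a)
    (h2 : ((d.choose (k - 1) * (d - k - 1).choose (k - 1) * 2 ^ (d - 2 * k) : ℕ) : ℤ) ≤ (k : ℤ) * a) :
    b ^ k * ((d / 2).choose k : ℤ) ^ (k + 1) ≤ a ^ (k + 1) * ((d / 2).choose (k + 1) : ℤ) ^ k := by
  obtain ⟨g, rfl⟩ := Int.eq_ofNat_of_zero_le ha
  obtain ⟨g', rfl⟩ := Int.eq_ofNat_of_zero_le hb
  obtain ⟨κ, rfl⟩ : ∃ κ, k = κ + 1 := ⟨k - 1, by omega⟩
  obtain ⟨x, hx⟩ : ∃ x, d / 2 = x + (κ + 1) := ⟨d / 2 - (κ + 1), by omega⟩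
  have hx1 : 1 ≤ x := by omega
  rw [hx]
  rw [Nat.add_sub_cancel] at h2
  rcases Nat.even_or_odd' d with ⟨m, hm | hm⟩
  · have hm' : d = 2 * (x + (κ + 1)) := by omega
    have e1 : d - 2 * (κ + 1) = 2 * x := by omega
    rw [e1, hm'] at h2
    have h3 := even_bound κ x g (by exact_mod_cast h2) hx1
    have h4 := color_step (κ + 1) x (4 * x * (x + 1)) g g' hk (by
      rw [hm'] at h1
      push_cast at h1
      have h5 : 4 * ((κ : ℤ) + 1) * (κ + 1 + 1) * g' ≤ (4 * x * (x + 1)) * g := by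
        calc 4 * ((κ : ℤ) + 1) * (κ + 1 + 1) * g' ≤ _ := h1
          _ = _ := by ring
      exact_mod_cast h5) (by
      calc (x + (κ + 1)).choose (κ + 1) * (4 * x * (x + 1)) ^ (κ + 1) =
          (4 * x) ^ (κ + 1) * ((x + (κ + 1)).choose (κ + 1) * (x + 1) ^ (κ + 1)) := by
            rw [mul_pow (4 * x)]; ring
        _ ≤ (4 * x) ^ (κ + 1) * (g * (κ + 1) ^ (κ + 1)) := Nat.mul_le_mul_left _ h3
        _ = g * (4 * (κ + 1) * x) ^ (κ + 1) := by
            have e : 4 * (κ + 1) * x = (4 * x) * (κ + 1) := by ring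
            rw [e, mul_pow (4 * x)]; ring)
    exact_mod_cast h4
  · have hm' : d = 2 * (x + (κ + 1)) + 1 := by omega
    have e1 : d - 2 * (κ + 1) = 2 * x + 1 := by omega
    rw [e1, hm'] at h2
    have h3 := odd_bound κ x g (by exact_mod_cast h2) hx1
    have h4 := color_step (κ + 1) x ((2 * x + 1) * (2 * x + 3)) g g' hk (by
      rw [hm'] at h1
      push_cast at h1
      have h5 : 4 * ((κ : ℤ) + 1) * (κ + 1 + 1) * g' ≤ ((2 * x + 1) * (2 * x + 3)) * g := by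
        calc 4 * ((κ : ℤ) + 1) * (κ + 1 + 1) * g' ≤ _ := h1
          _ = _ := by ring
      exact_mod_cast h5) (by
      have e2 : (2 * x + 1) * (2 * x + 3) ≤ 4 * x * (x + 3) := by nlinarith
      calc (x + (κ + 1)).choose (κ + 1) * ((2 * x + 1) * (2 * x + 3)) ^ (κ + 1) ≤
          (x + (κ + 1)).choose (κ + 1) * (4 * x * (x + 3)) ^ (κ + 1) :=
            Nat.mul_le_mul_left _ (Nat.pow_le_pow_left e2 _)
        _ = (4 * x) ^ (κ + 1) * ((x + (κ + 1)).choose (κ + 1) * (x + 3) ^ (κ + 1)) := by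
            rw [mul_pow (4 * x)]; ring
        _ ≤ (4 * x) ^ (κ + 1) * (g * (κ + 1) ^ (κ + 1)) := Nat.mul_le_mul_left _ h3
        _ = g * (4 * (κ + 1) * x) ^ (κ + 1) := by
            have e : 4 * (κ + 1) * x = (4 * x) * (κ + 1) := by ring
            rw [e, mul_pow (4 * x)]; ring)
    exact_mod_cast h4

end Pool.Agent.KS6_44.TK
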