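import Pool.Agent.KS6_44.TK.Strong

/-!
# The sharp ratio inequality
-/

set_option autoImplicit false

namespace Pool.Agent.KS6_44.TK

open Finset Polynomial
open Pool.Agent.Q142.TG

/-- coefficient of `W` -/
noncomputable def w (q n m : ℕ) : ℤ := ((WW q n).coeff m : ℕ)

theorem w_nonneg (q n m : ℕ) : 0 ≤ w q n m := by unfold w; positivity

theorem w_der (q n m : ℕ) : ((m : ℤ) + 1) * w q n (m + 1) = q * w (q - 1) n m + n * w q (n - 1) m := by
  have h := WW_coeff_succ q n m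
  unfold w
  have h' : (((WW q n).coeff (m + 1) * (m + 1) : ℕ) : ℤ) =
      ((q * (WW (q - 1) n).coeff m + n * (WW q (n - 1)).coeff m : ℕ) : ℤ) := by rw [h]
  push_cast at h'
  linarith

theorem w_euler (q n m : ℕ) : ((n : ℤ) + q) * w q n m =
    m * w q n m + q * w (q - 1) n m + 2 * n * w q (n - 1) m := by
  have h := WW_euler_coeff q n m
  unfold w
  exact_mod_cast h

theorem w_left (q n m : ℕ) : (q : ℤ) * w q n (m + 1) = q * (w (q - 1) n m + w (q - 1) n (m + 1)) := by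
  cases q with
  | zero => simp
  | succ q =>
    rw [Nat.add_sub_cancel]
    congr 1
    unfold w
    rw [WW_succ_left, add_mul, one_mul, coeff_add, coeff_X_mul]
    push_cast
    ring

theorem w_left0 (q n : ℕ) : (q : ℤ) * w q n 0 = q * w (q - 1) n 0 := by
  cases q with
  | zero => simp
  | succ q =>
    rw [Nat.add_sub_cancel]
    congr 1
    unfold w
    rw [WW_succ_left, add_mul, one_mul, coeff_add, coeff_X_mul_zero]
    push_cast
    ring

/-- Catalan numbers -/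
noncomputable def ct (l : ℕ) : ℤ := (catalan l : ℕ)

theorem ct_nonneg (l : ℕ) : 0 ≤ ct l := by unfold ct; positivity

theorem ct_succ (l : ℕ) : ((l : ℤ) + 2) * ct (l + 1) = 2 * (2 * l + 1) * ct l := by
  have h := cat_succ l
  unfold ct
  exact_mod_cast h

noncomputable def ft (n q l : ℕ) : ℤ := ct l * w q n (2 * l)

noncomputable def fu (n q : ℕ) : ℕ → ℤ
  | 0 => 0
  | l + 1 => ct (l + 1) * w q n (2 * l + 1)

noncomputable def fv (n q : ℕ) : ℕ → ℤ
  | 0 => 0
  | l + 1 => ct (l + 1) * w q n (2 * l)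

theorem f1 (q n l : ℕ) : (2 * (q : ℤ) + n + 1) * fu n q l =
    2 * l * fu n q l + q * fv n (q - 1) l + 2 * q * fu n (q - 1) l + 2 * n * fu (n - 1) q l := by
  cases l with
  | zero => simp [fu, fv]
  | succ l =>
    simp only [fu, fv]
    have h1 := w_euler q n (2 * l + 1)
    have h2 := w_left q n (2 * l)
    push_cast at h1 ⊢
    linear_combination (ct (l + 1)) * h1 + (ct (l + 1)) * h2

theorem f2 (q n l : ℕ) : 2 * (l : ℤ) * ft n q l = q * fu n (q - 1) l + n * fu (n - 1) q l := by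
  cases l with
  | zero => simp [fu, ft]
  | succ l =>
    simp only [fu, ft]
    have h1 := w_der q n (2 * l + 1)
    have e1 : 2 * (l + 1) = 2 * l + 1 + 1 := by ring
    rw [e1]
    push_cast at h1 ⊢
    linear_combination (ct (l + 1)) * h1

theorem f3 (q n l : ℕ) : 4 * (q : ℤ) * ft n (q - 1) l ≤ 3 * fu n q (l + 1) + q * fv n (q - 1) (l + 1) := by
  simp only [fu, ft, fv]
  have h1 := w_der q n (2 * l)
  have h2 := ct_succ l
  have h3 : 0 ≤ (n : ℤ) * w q (n - 1) (2 * l) := mul_nonneg (by positivity) (w_nonneg _ _ _)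
  have h4 := ct_nonneg (l + 1)
  have h5 : (0 : ℤ) < 2 * l + 1 := by positivity
  refine le_of_mul_le_mul_left ?_ h5
  push_cast at h1
  have h6 : (2 * (l : ℤ) + 1) * (3 * (ct (l + 1) * w q n (2 * l + 1)) +
      q * (ct (l + 1) * w (q - 1) n (2 * l))) - (2 * (l : ℤ) + 1) * (4 * q * (ct l * w (q - 1) n (2 * l))) =
      3 * ct (l + 1) * (n * w q (n - 1) (2 * l)) := by
    linear_combination 3 * ct (l + 1) * h1 + 2 * q * w (q - 1) n (2 * l) * h2
  have h7 := mul_nonneg (mul_nonneg (by norm_num : (0 : ℤ) ≤ 3) h4) h3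
  linarith

theorem f4 (q n l : ℕ) : (2 * ((l : ℤ) + 1) + 2) * fu n q (l + 1) =
    4 * q * ft n (q - 1) l + 4 * n * ft (n - 1) q l := by
  simp only [fu, ft]
  have h1 := w_der q n (2 * l)
  have h2 := ct_succ l
  push_cast at h1
  linear_combination 2 * w q n (2 * l + 1) * h2 + 4 * ct l * h1

theorem f5 (q n l : ℕ) : (2 * (q : ℤ) + n) * ft n q l =
    2 * l * ft n q l + q * fu n (q - 1) l + 2 * q * ft n (q - 1) l + 2 * n * ft (n - 1) q l := by
  cases l with
  | zero =>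
    simp only [fu, ft]
    have h1 := w_euler q n 0
    have h2 := w_left0 q n
    push_cast at h1 ⊢
    simp only [mul_zero] at h1 ⊢
    linear_combination (ct 0) * h1 + (ct 0) * h2
  | succ l =>
    simp only [fu, ft]
    have e1 : 2 * (l + 1) = 2 * l + 1 + 1 := by ring
    rw [e1]
    have h1 := w_euler q n (2 * l + 1 + 1)
    have h2 := w_left q n (2 * l + 1)
    push_cast at h1 ⊢
    linear_combination (ct (l + 1)) * h1 + (ct (l + 1)) * h2

/-- the sums over `e` -/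
noncomputable def Sm (φ : ℕ → ℕ → ℤ) (j K : ℕ) : ℤ :=
  ∑ e ∈ range (K + 1), (j.choose e : ℤ) * φ (j - e) (K - e)

theorem ch1 (j e : ℕ) (he : e ≤ j) : (j : ℤ) * ((j - 1).choose e : ℤ) = (j.choose e : ℤ) * ((j - e : ℕ) : ℤ) := by
  cases j with
  | zero =>
    have : e = 0 := by omega
    subst this
    simp
  | succ j =>
    rw [Nat.add_sub_cancel]
    have h := Nat.choose_mul_succ_eq j e
    have : (((j.choose e) * (j + 1) : ℕ) : ℤ) = (((j + 1).choose e * (j + 1 - e) : ℕ) : ℤ) := by rw [h]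
    rw [Nat.cast_mul, Nat.cast_mul] at this
    rw [← this]
    ring

theorem ch0 (j e : ℕ) (he : ¬ e ≤ j) : (j.choose e : ℤ) = 0 ∧ ((j - 1).choose e : ℤ) = 0 := by
  constructor
  · rw [Nat.choose_eq_zero_of_lt (by omega)]; rfl
  · rw [Nat.choose_eq_zero_of_lt (by omega)]; rfl

theorem shift (φ : ℕ → ℕ → ℤ) (j K : ℕ) :
    ∑ e ∈ range (K + 1 + 1), (e : ℤ) * ((j.choose e : ℤ) * φ (j - e) (K + 1 - e)) = j * Sm φ (j - 1) K := by
  rw [sum_range_succ', Sm, mul_sum]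
  simp only [Nat.cast_zero, zero_mul, add_zero]
  refine sum_congr rfl fun e _ => ?_
  have e1 : K + 1 - (e + 1) = K - e := by omega
  have e2 : j - (e + 1) = j - 1 - e := by omega
  rw [e1, e2]
  have h : (((e + 1 : ℕ) : ℤ)) * (j.choose (e + 1) : ℤ) = j * ((j - 1).choose e : ℤ) := by
    cases j with
    | zero => simp
    | succ j =>
      rw [Nat.add_sub_cancel]
      have h := Nat.add_one_mul_choose_eq j e
      have h' : (((j + 1) * j.choose e : ℕ) : ℤ) = (((j + 1).choose (e + 1) * (e + 1) : ℕ) : ℤ) := by rw [h]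
      rw [Nat.cast_mul, Nat.cast_mul] at h'
      linarith
  rw [← mul_assoc, h]
  ring

theorem F1 (j n K : ℕ) : (2 * (j : ℤ) + n + 1 - 2 * K) * Sm (fu n) j K =
    j * Sm (fv n) (j - 1) K + 2 * (j * Sm (fu n) (j - 1) K) + 2 * n * Sm (fu (n - 1)) j K := by
  unfold Sm
  simp only [mul_sum]
  rw [← sum_add_distrib, ← sum_add_distrib]
  refine sum_congr rfl fun e he => ?_
  have he' := mem_range.1 he
  by_cases hj : e ≤ j
  · have h1 := f1 (j - e) n (K - e)
    have h2 := ch1 j e hj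
    have e2 : j - 1 - e = j - e - 1 := by omega
    rw [e2]
    have c1 : ((j - e : ℕ) : ℤ) = j - e := by push_cast [hj]; ring
    have c2 : ((K - e : ℕ) : ℤ) = K - e := by
      have : e ≤ K := by omega
      push_cast [this]; ring
    rw [c1] at h2
    rw [c1, c2] at h1
    linear_combination (j.choose e : ℤ) * h1 - (fv n (j - e - 1) (K - e) + 2 * fu n (j - e - 1) (K - e)) * h2
  · obtain ⟨h1, h2⟩ := ch0 j e hj
    rw [h1, h2]
    ring

theorem F5 (j n K : ℕ) : (2 * (j : ℤ) + n - 2 * K) * Sm (ft n) j K =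
    j * Sm (fu n) (j - 1) K + 2 * (j * Sm (ft n) (j - 1) K) + 2 * n * Sm (ft (n - 1)) j K := by
  unfold Sm
  simp only [mul_sum]
  rw [← sum_add_distrib, ← sum_add_distrib]
  refine sum_congr rfl fun e he => ?_
  have he' := mem_range.1 he
  by_cases hj : e ≤ j
  · have h1 := f5 (j - e) n (K - e)
    have h2 := ch1 j e hj
    have e2 : j - 1 - e = j - e - 1 := by omega
    rw [e2]
    have c1 : ((j - e : ℕ) : ℤ) = j - e := by push_cast [hj]; ring
    have c2 : ((K - e : ℕ) : ℤ) = K - e := by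
      have : e ≤ K := by omega
      push_cast [this]; ring
    rw [c1] at h2
    rw [c1, c2] at h1
    linear_combination (j.choose e : ℤ) * h1 - (fu n (j - e - 1) (K - e) + 2 * ft n (j - e - 1) (K - e)) * h2
  · obtain ⟨h1, h2⟩ := ch0 j e hj
    rw [h1, h2]
    ring

theorem F2 (j n K : ℕ) : 2 * ((K : ℤ) + 1) * Sm (ft n) j (K + 1) =
    2 * (j * Sm (ft n) (j - 1) K) + j * Sm (fu n) (j - 1) (K + 1) + n * Sm (fu (n - 1)) j (K + 1) := by
  rw [← shift]
  unfold Sm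
  simp only [mul_sum]
  rw [← sum_add_distrib, ← sum_add_distrib]
  refine sum_congr rfl fun e he => ?_
  have he' := mem_range.1 he
  by_cases hj : e ≤ j
  · have h1 := f2 (j - e) n (K + 1 - e)
    have h2 := ch1 j e hj
    have e2 : j - 1 - e = j - e - 1 := by omega
    rw [e2]
    have c1 : ((j - e : ℕ) : ℤ) = j - e := by push_cast [hj]; ring
    have c2 : ((K + 1 - e : ℕ) : ℤ) = K + 1 - e := by
      have : e ≤ K + 1 := by omega
      push_cast [this]; ring
    rw [c1] at h2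
    rw [c1, c2] at h1
    linear_combination (j.choose e : ℤ) * h1 - (fu n (j - e - 1) (K + 1 - e)) * h2
  · obtain ⟨h1, h2⟩ := ch0 j e hj
    rw [h1, h2]
    ring

theorem F4 (j n K : ℕ) : (2 * ((K : ℤ) + 1) + 2) * Sm (fu n) j (K + 1) =
    2 * (j * Sm (fu n) (j - 1) K) + 4 * (j * Sm (ft n) (j - 1) K) + 4 * n * Sm (ft (n - 1)) j K := by
  rw [← shift]
  have h0 : (2 * ((K : ℤ) + 1) + 2) * Sm (fu n) j (K + 1) -
      2 * ∑ e ∈ range (K + 1 + 1), (e : ℤ) * ((j.choose e : ℤ) * fu n (j - e) (K + 1 - e)) =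
      ∑ e ∈ range (K + 1 + 1), (j.choose e : ℤ) *
        ((2 * ((K : ℤ) + 1 - e) + 2) * fu n (j - e) (K + 1 - e)) := by
    unfold Sm
    rw [mul_sum, mul_sum, ← sum_sub_distrib]
    exact sum_congr rfl fun e _ => by ring
  have hz : fu n (j - (K + 1)) (K + 1 - (K + 1)) = 0 := by rw [Nat.sub_self]; rfl
  rw [sum_range_succ (fun e => (j.choose e : ℤ) *
        ((2 * ((K : ℤ) + 1 - e) + 2) * fu n (j - e) (K + 1 - e))) (K + 1)] at h0
  rw [hz, mul_zero, mul_zero, add_zero] at h0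
  have h3 : ∑ e ∈ range (K + 1), (j.choose e : ℤ) *
        ((2 * ((K : ℤ) + 1 - e) + 2) * fu n (j - e) (K + 1 - e)) =
      4 * (j * Sm (ft n) (j - 1) K) + 4 * n * Sm (ft (n - 1)) j K := by
    unfold Sm
    simp only [mul_sum]
    rw [← sum_add_distrib]
    refine sum_congr rfl fun e he => ?_
    have he' := mem_range.1 he
    have e3 : K + 1 - e = K - e + 1 := by omega
    rw [e3]
    by_cases hj : e ≤ j
    · have h1 := f4 (j - e) n (K - e)
      have h2 := ch1 j e hj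
      have e2 : j - 1 - e = j - e - 1 := by omega
      rw [e2]
      have c1 : ((j - e : ℕ) : ℤ) = j - e := by push_cast [hj]; ring
      have c2 : ((K - e : ℕ) : ℤ) = K - e := by
        have : e ≤ K := by omega
        push_cast [this]; ring
      rw [c1] at h2
      rw [c1, c2] at h1
      linear_combination (j.choose e : ℤ) * h1 - 4 * (ft n (j - e - 1) (K - e)) * h2
    · obtain ⟨h1, h2⟩ := ch0 j e hj
      rw [h1, h2]
      ring
  linarith

theorem F3 (j n K : ℕ) : 4 * (j * Sm (ft n) (j - 1) K) ≤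
    3 * Sm (fu n) j (K + 1) + j * Sm (fv n) (j - 1) (K + 1) := by
  have h3 : 4 * (j * Sm (ft n) (j - 1) K) ≤ ∑ e ∈ range (K + 1),
      (3 * ((j.choose e : ℤ) * fu n (j - e) (K + 1 - e)) +
        j * (((j - 1).choose e : ℤ) * fv n (j - 1 - e) (K + 1 - e))) := by
    unfold Sm
    simp only [mul_sum]
    refine sum_le_sum fun e he => ?_
    have he' := mem_range.1 he
    have e3 : K + 1 - e = K - e + 1 := by omega
    rw [e3]
    by_cases hj : e ≤ j
    · have h1 := f3 (j - e) n (K - e)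
      have h2 := ch1 j e hj
      have e2 : j - 1 - e = j - e - 1 := by omega
      rw [e2]
      have h4 := mul_le_mul_of_nonneg_left h1 (by positivity : (0 : ℤ) ≤ (j.choose e : ℤ))
      calc 4 * ((j : ℤ) * (((j - 1).choose e : ℤ) * ft n (j - e - 1) (K - e))) =
          4 * (((j : ℤ) * ((j - 1).choose e : ℤ)) * ft n (j - e - 1) (K - e)) := by ring
        _ = (j.choose e : ℤ) * (4 * ((j - e : ℕ) : ℤ) * ft n (j - e - 1) (K - e)) := by rw [h2]; ring
        _ ≤ _ := h4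
        _ = 3 * ((j.choose e : ℤ) * fu n (j - e) (K - e + 1)) +
            ((j.choose e : ℤ) * ((j - e : ℕ) : ℤ)) * fv n (j - e - 1) (K - e + 1) := by ring
        _ = _ := by rw [← h2]; ring
    · obtain ⟨h1, h2⟩ := ch0 j e hj
      rw [h1, h2]
      simp
  refine h3.trans (le_of_eq ?_)
  unfold Sm
  have hz : fu n (j - (K + 1)) (K + 1 - (K + 1)) = 0 := by rw [Nat.sub_self]; rfl
  have hz' : fv n (j - 1 - (K + 1)) (K + 1 - (K + 1)) = 0 := by rw [Nat.sub_self]; rfl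
  rw [sum_range_succ (fun e => (j.choose e : ℤ) * fu n (j - e) (K + 1 - e)),
    sum_range_succ (fun e => ((j - 1).choose e : ℤ) * fv n (j - 1 - e) (K + 1 - e)), hz, hz',
    mul_zero, mul_zero, add_zero, add_zero, sum_add_distrib, mul_sum, mul_sum]

theorem tt_eq (j n k : ℕ) : (tt j n k : ℤ) = Sm (ft n) j k := by
  unfold tt Sm ft ct w
  push_cast
  rfl

/-- **The sharp ratio inequality** -/
theorem tt_sharp (j n k r : ℕ) (h : r + 1 + 2 * (k + 1) = n + 2 * j + 2) :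
    4 * ((k : ℤ) + 1) * (k + 2) * (tt j n (k + 1) : ℤ) ≤ ((r : ℤ) + 1) * (r + 3) * (tt j n k : ℤ) := by
  rw [tt_eq, tt_eq]
  have hr : (r : ℤ) + 1 = 2 * j + n - 2 * k := by
    have : ((r + 1 + 2 * (k + 1) : ℕ) : ℤ) = ((n + 2 * j + 2 : ℕ) : ℤ) := by rw [h]
    push_cast at this
    linarith
  have hr3 : (r : ℤ) + 3 = 2 * j + n - 2 * k + 2 := by linarith
  have h1 := F1 j n (k + 1)
  have h2 := F2 j n k
  have h3 := F3 j n k
  have h4 := F4 j n k
  have h5 := F5 j n k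
  push_cast at h1
  -- `(k + 2) U = (M - 2 k) T`
  have hA : ((k : ℤ) + 2) * Sm (fu n) j (k + 1) = (2 * j + n - 2 * k) * Sm (ft n) j k := by
    have h6 : 2 * (((k : ℤ) + 2) * Sm (fu n) j (k + 1)) = 2 * ((2 * j + n - 2 * k) * Sm (ft n) j k) := by
      linear_combination h4 - 2 * h5
    linarith
  have hB : 4 * ((k : ℤ) + 1) * Sm (ft n) j (k + 1) ≤ (2 * j + n - 2 * k + 2) * Sm (fu n) j (k + 1) := by
    linarith
  rw [hr, hr3]
  calc 4 * ((k : ℤ) + 1) * (k + 2) * Sm (ft n) j (k + 1) =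
      ((k : ℤ) + 2) * (4 * ((k : ℤ) + 1) * Sm (ft n) j (k + 1)) := by ring
    _ ≤ ((k : ℤ) + 2) * ((2 * j + n - 2 * k + 2) * Sm (fu n) j (k + 1)) :=
        mul_le_mul_of_nonneg_left hB (by positivity)
    _ = (2 * j + n - 2 * k + 2) * (((k : ℤ) + 2) * Sm (fu n) j (k + 1)) := by ring
    _ = _ := by rw [hA]; ring

/-- the sharp ratio inequality for the toric g-polynomial -/
theorem gp_ratio_sharp (d : ℕ) (h γ : ℕ → ℤ) (h0 : h 0 = 1) (hs : ∀ i, i ≤ d → h (d - i) = h i)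
    (hp : ∀ i, i ≤ d → h i = ∑ j ∈ range (d / 2 + 1),
      if j ≤ i then γ j * ((d - 2 * j).choose (i - j) : ℤ) else 0)
    (hγ : ∀ j, j ≤ d / 2 → 0 ≤ γ j) (k : ℕ) (hk : 1 ≤ k) (hkd : k + 1 ≤ d / 2) :
    4 * (k : ℤ) * (k + 1) * (gp d h).coeff (k + 1) ≤
      ((d : ℤ) - 2 * k) * (d - 2 * k + 2) * (gp d h).coeff k := by
  obtain ⟨κ, rfl⟩ : ∃ κ, k = κ + 1 := ⟨k - 1, by omega⟩
  obtain ⟨r, hr⟩ : ∃ r, d = r + 2 + 2 * (κ + 1) := ⟨d - 2 - 2 * (κ + 1), by omega⟩
  have hd : (d : ℤ) = r + 2 + 2 * (κ + 1) := by rw [hr]; push_cast; ring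
  have ha := gp_gamma d h γ h0 hs hp κ
  have hb := gp_gamma d h γ h0 hs hp (κ + 1)
  have main : 4 * ((κ : ℤ) + 1) * (κ + 2) * (gp d h).coeff (κ + 1 + 1) ≤
      ((r : ℤ) + 2) * (r + 4) * (gp d h).coeff (κ + 1) := by
    have key : ∀ A B : ℤ, (∀ j ∈ range (d / 2), A * (γ (j + 1) *
        (tt j (d - 2 * j - 2) (κ + 1) : ℤ)) ≤ B * (γ (j + 1) * (tt j (d - 2 * j - 2) κ : ℤ))) →
        A * (G0 d).coeff (κ + 1 + 1) ≤ B * (G0 d).coeff (κ + 1) →
        A * (gp d h).coeff (κ + 1 + 1) ≤ B * (gp d h).coeff (κ + 1) := by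
      intro A B hA hB
      rw [ha, hb, mul_add, mul_add, mul_sum, mul_sum]
      exact add_le_add (sum_le_sum hA) hB
    apply key
    · intro j hj
      have hj' := mem_range.1 hj
      have h2 := tt_sharp j (d - 2 * j - 2) κ (r + 1) (by omega)
      push_cast at h2
      calc 4 * ((κ : ℤ) + 1) * (κ + 2) * (γ (j + 1) * (tt j (d - 2 * j - 2) (κ + 1) : ℤ)) =
          γ (j + 1) * (4 * ((κ : ℤ) + 1) * (κ + 2) * (tt j (d - 2 * j - 2) (κ + 1) : ℤ)) := by ring
        _ ≤ γ (j + 1) * (((r : ℤ) + 1 + 1) * (r + 1 + 3) * (tt j (d - 2 * j - 2) κ : ℤ)) :=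
            mul_le_mul_of_nonneg_left h2 (hγ (j + 1) (by omega))
        _ = _ := by ring
    · have h2 := G0_ratio d κ (r + 1) (by omega)
      have h3 := G0_nonneg d (κ + 1)
      push_cast at h2
      calc 4 * ((κ : ℤ) + 1) * (κ + 2) * (G0 d).coeff (κ + 1 + 1) ≤
          ((r : ℤ) + 1 + 1) ^ 2 * (G0 d).coeff (κ + 1) := h2
        _ ≤ _ := by
            apply mul_le_mul_of_nonneg_right _ h3
            nlinarith [Int.natCast_nonneg r, Int.natCast_nonneg κ]
  rw [hd]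
  push_cast
  calc 4 * ((κ : ℤ) + 1) * (κ + 1 + 1) * (gp d h).coeff (κ + 1 + 1) =
      4 * ((κ : ℤ) + 1) * (κ + 2) * (gp d h).coeff (κ + 1 + 1) := by ring
    _ ≤ _ := main
    _ = _ := by ring

variable {β : Type} [PartialOrder β] {L : Finset β} {r : β → ℕ}

open Classical in
/-- **The inequalities for the solutions of the recursion.** -/
theorem strong_sharp (hS : Sys L r) {g : β → ℤ[X]} (hg0 : ∀ y ∈ L, r y = 0 → g y = 1)
    (hg : ∀ y ∈ L, r y ≠ 0 → g y =
      trunc (r y - 1) (∑ x ∈ L.filter (fun x => x < y), g x * (X - 1) ^ (r y - 1 - r x)))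
    {y : β} (hy : y ∈ L) {d : ℕ} (hd : r y = d + 1) (γ : ℕ → ℤ)
    (hγ : ∑ i ∈ range (d + 1), C (((L.filter fun x => x ≤ y ∧ r x = i + 1).card : ℕ) : ℤ) *
      ((X : ℤ[X]) - 1) ^ i =
      ∑ j ∈ range (d / 2 + 1), C (γ j) * (X ^ j * (1 + X) ^ (d - 2 * j)))
    (hpos : ∀ j, j ≤ d / 2 → 0 ≤ γ j) :
    (∀ k, 1 ≤ k → k ≤ d / 2 →
      ((d.choose (k - 1) * (d - k - 1).choose (k - 1) * 2 ^ (d - 2 * k) : ℕ) : ℤ) ≤
        (k : ℤ) * (g y).coeff k) ∧
    ∀ k, 1 ≤ k → k + 1 ≤ d / 2 →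
      4 * (k : ℤ) * (k + 1) * (g y).coeff (k + 1) ≤
        ((d : ℤ) - 2 * k) * (d - 2 * k + 2) * (g y).coeff k ∧
      ∀ n : ℕ, (g y).coeff k < (((n + 1).choose k : ℕ) : ℤ) →
        (g y).coeff (k + 1) ≤ ((n.choose (k + 1) : ℕ) : ℤ) := by
  have hv : ∀ y, ∃ h : ℕ → ℤ, y ∈ L → 1 ≤ r y → h 0 = 1 ∧ (∀ i, i ≤ r y - 1 → h (r y - 1 - i) = h i) ∧
      ∀ i, ((L.filter fun x => x ≤ y ∧ r x = i + 1).card : ℤ) =
        ∑ j ∈ range (r y - 1 + 1), h j * (j.choose i : ℤ) := by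
    intro y
    by_cases hy : y ∈ L ∧ 1 ≤ r y
    · obtain ⟨h, h1⟩ := hS.hv y hy.1 (r y - 1) (by omega)
      exact ⟨h, fun _ _ => h1⟩
    · exact ⟨0, fun h1 h2 => absurd ⟨h1, h2⟩ hy⟩
  choose H hH using hv
  have key := hS.tg_eq (H := H) (fun y hy h1 => (hH y hy h1).1) (fun y hy h1 => (hH y hy h1).2.1)
    (fun y hy e he i => by
      have h1 := (hH y hy (by omega)).2.2 i
      have e1 : r y - 1 + 1 = e + 1 := by omega
      rw [e1] at h1
      exact h1) (d + 1) y hy (by omega)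
  have e0 : r y - 1 = d := by omega
  have hgy : g y = gp d (H y) := by
    rw [hS.unique hg0 hg (d + 1) y hy (by omega), key, if_neg (by omega), e0]
  obtain ⟨h1, h2, h3⟩ := hH y hy (by omega)
  rw [e0] at h2 h3
  rw [hgy]
  have h4 : ∀ i, i ≤ d → H y i = ∑ j ∈ range (d / 2 + 1),
      if j ≤ i then γ j * ((d - 2 * j).choose (i - j) : ℤ) else 0 := by
    apply gamma_coeff
    rw [← hγ]
    exact (h_poly d (H y) _ h3).symm
  exact ⟨gp_lower d (H y) γ h1 h2 h4 hpos, fun k hk hkd =>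
    ⟨gp_ratio_sharp d (H y) γ h1 h2 h4 hpos k hk hkd, (gp_strong d (H y) γ h1 h2 h4 hpos k hk hkd).2⟩⟩

end Pool.Agent.KS6_44.TK
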