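import Pool.Graph.R_pool_sql_team_seeded_3997aac3.Q142.TG.Final

/-!
# Ratio inequalities for toric g-polynomials
-/

set_option autoImplicit false

namespace Pool.Agent.KS6_44.TK

open Finset Polynomial
open Pool.Agent.Q142.TG

/-- the lower bound by the term of `γ_0` -/
theorem gp_ge (d : ℕ) (h γ : ℕ → ℤ) (h0 : h 0 = 1) (hs : ∀ i, i ≤ d → h (d - i) = h i)
    (hp : ∀ i, i ≤ d → h i = ∑ j ∈ range (d / 2 + 1),
      if j ≤ i then γ j * ((d - 2 * j).choose (i - j) : ℤ) else 0)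
    (hγ : ∀ j, j ≤ d / 2 → 0 ≤ γ j) (κ : ℕ) : (G0 d).coeff (κ + 1) ≤ (gp d h).coeff (κ + 1) := by
  have ha := gp_gamma d h γ h0 hs hp κ
  have hnn : 0 ≤ ∑ j ∈ range (d / 2), γ (j + 1) * (tt j (d - 2 * j - 2) κ : ℤ) := by
    apply sum_nonneg
    intro j hj
    have hj' := mem_range.1 hj
    exact mul_nonneg (hγ (j + 1) (by omega)) (by positivity)
  rw [ha]
  linarith

/-- the explicit lower bound -/
theorem gp_lower (d : ℕ) (h γ : ℕ → ℤ) (h0 : h 0 = 1) (hs : ∀ i, i ≤ d → h (d - i) = h i)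
    (hp : ∀ i, i ≤ d → h i = ∑ j ∈ range (d / 2 + 1),
      if j ≤ i then γ j * ((d - 2 * j).choose (i - j) : ℤ) else 0)
    (hγ : ∀ j, j ≤ d / 2 → 0 ≤ γ j) (k : ℕ) (hk : 1 ≤ k) (hkd : k ≤ d / 2) :
    ((d.choose (k - 1) * (d - k - 1).choose (k - 1) * 2 ^ (d - 2 * k) : ℕ) : ℤ) ≤
      (k : ℤ) * (gp d h).coeff k := by
  obtain ⟨κ, rfl⟩ : ∃ κ, k = κ + 1 := ⟨k - 1, by omega⟩
  obtain ⟨r, hr⟩ : ∃ r, d = r + 2 * (κ + 1) := ⟨d - 2 * (κ + 1), by omega⟩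
  have h1 := G0_lower d κ r hr.symm
  have h2 := gp_ge d h γ h0 hs hp hγ κ
  have e1 : d - (κ + 1) - 1 = r + κ := by omega
  have e2 : d - 2 * (κ + 1) = r := by omega
  rw [e1, e2, Nat.add_sub_cancel, mul_assoc]
  calc ((d.choose κ * ((r + κ).choose κ * 2 ^ r) : ℕ) : ℤ) ≤
      ((κ : ℤ) + 1) * (G0 d).coeff (κ + 1) := h1
    _ ≤ ((κ : ℤ) + 1) * (gp d h).coeff (κ + 1) := mul_le_mul_of_nonneg_left h2 (by positivity)
    _ = _ := by push_cast; ring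

/-- the ratio inequality -/
theorem gp_ratio (d : ℕ) (h γ : ℕ → ℤ) (h0 : h 0 = 1) (hs : ∀ i, i ≤ d → h (d - i) = h i)
    (hp : ∀ i, i ≤ d → h i = ∑ j ∈ range (d / 2 + 1),
      if j ≤ i then γ j * ((d - 2 * j).choose (i - j) : ℤ) else 0)
    (hγ : ∀ j, j ≤ d / 2 → 0 ≤ γ j) (κ r : ℕ) (hr : d = r + 2 + 2 * (κ + 1)) :
    4 * ((κ : ℤ) + 1) * (κ + 2) * (gp d h).coeff (κ + 1 + 1) ≤
      ((r : ℤ) + 2) * ((r + 2) + 4 * κ + 3) * (gp d h).coeff (κ + 1) := by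
  have ha := gp_gamma d h γ h0 hs hp κ
  have hb := gp_gamma d h γ h0 hs hp (κ + 1)
  have key : ∀ A B : ℤ, (∀ j ∈ range (d / 2), A * (γ (j + 1) *
      (tt j (d - 2 * j - 2) (κ + 1) : ℤ)) ≤ B * (γ (j + 1) * (tt j (d - 2 * j - 2) κ : ℤ))) →
      A * (G0 d).coeff (κ + 1 + 1) ≤ B * (G0 d).coeff (κ + 1) →
      A * (gp d h).coeff (κ + 1 + 1) ≤ B * (gp d h).coeff (κ + 1) := by
    intro A B hA hB
    rw [ha, hb, mul_add, mul_add, mul_sum, mul_sum]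
    exact add_le_add (sum_le_sum hA) hB
  apply key
  · intro j hj
    have hj' := mem_range.1 hj
    have h2 := tt_ratio j (d - 2 * j - 2) κ (r + 1) (by omega)
    have h3 : 4 * ((κ : ℤ) + 1) * (κ + 2) * (tt j (d - 2 * j - 2) (κ + 1) : ℤ) ≤
        ((r : ℤ) + 2) * ((r + 2) + 4 * κ + 3) * (tt j (d - 2 * j - 2) κ : ℤ) := by
      have h4 : ((4 * (κ + 1) * (κ + 2) * tt j (d - 2 * j - 2) (κ + 1) : ℕ) : ℤ) ≤
          (((r + 1 + 1) * (r + 1 + 4 * κ + 4) * tt j (d - 2 * j - 2) κ : ℕ) : ℤ) := by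
        exact_mod_cast h2
      push_cast at h4
      calc 4 * ((κ : ℤ) + 1) * (κ + 2) * (tt j (d - 2 * j - 2) (κ + 1) : ℤ) ≤ _ := h4
        _ = _ := by ring
    calc 4 * ((κ : ℤ) + 1) * (κ + 2) * (γ (j + 1) * (tt j (d - 2 * j - 2) (κ + 1) : ℤ)) =
        γ (j + 1) * (4 * ((κ : ℤ) + 1) * (κ + 2) * (tt j (d - 2 * j - 2) (κ + 1) : ℤ)) := by ring
      _ ≤ γ (j + 1) * (((r : ℤ) + 2) * ((r + 2) + 4 * κ + 3) * (tt j (d - 2 * j - 2) κ : ℤ)) :=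
          mul_le_mul_of_nonneg_left h3 (hγ (j + 1) (by omega))
      _ = _ := by ring
  · have h2 := G0_ratio d κ (r + 1) (by omega)
    have h3 := G0_nonneg d (κ + 1)
    push_cast at h2
    calc 4 * ((κ : ℤ) + 1) * (κ + 2) * (G0 d).coeff (κ + 1 + 1) ≤
        ((r : ℤ) + 1 + 1) ^ 2 * (G0 d).coeff (κ + 1) := h2
      _ ≤ _ := by
          apply mul_le_mul_of_nonneg_right _ h3
          nlinarith [Int.natCast_nonneg r, Int.natCast_nonneg κ]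

/-- **The strong inequalities.** -/
theorem gp_strong (d : ℕ) (h γ : ℕ → ℤ) (h0 : h 0 = 1) (hs : ∀ i, i ≤ d → h (d - i) = h i)
    (hp : ∀ i, i ≤ d → h i = ∑ j ∈ range (d / 2 + 1),
      if j ≤ i then γ j * ((d - 2 * j).choose (i - j) : ℤ) else 0)
    (hγ : ∀ j, j ≤ d / 2 → 0 ≤ γ j) (k : ℕ) (hk : 1 ≤ k) (hkd : k + 1 ≤ d / 2) :
    4 * (k : ℤ) * (k + 1) * (gp d h).coeff (k + 1) ≤
        ((d : ℤ) - 2 * k) * (d + 2 * k - 1) * (gp d h).coeff k ∧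
      ∀ n : ℕ, (gp d h).coeff k < (((n + 1).choose k : ℕ) : ℤ) →
        (gp d h).coeff (k + 1) ≤ ((n.choose (k + 1) : ℕ) : ℤ) := by
  obtain ⟨κ, rfl⟩ : ∃ κ, k = κ + 1 := ⟨k - 1, by omega⟩
  obtain ⟨r, hr⟩ : ∃ r, d = r + 2 + 2 * (κ + 1) := ⟨d - 2 - 2 * (κ + 1), by omega⟩
  have h1 := gp_ratio d h γ h0 hs hp hγ κ r hr
  obtain ⟨hz, hpos, -⟩ := gp_kk d h γ h0 hs hp hγ
  refine ⟨?_, ?_⟩
  · have hd : (d : ℤ) = r + 2 + 2 * (κ + 1) := by rw [hr]; push_cast; ring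
    rw [hd]
    push_cast
    calc 4 * ((κ : ℤ) + 1) * (κ + 1 + 1) * (gp d h).coeff (κ + 1 + 1) =
        4 * ((κ : ℤ) + 1) * (κ + 2) * (gp d h).coeff (κ + 1 + 1) := by ring
      _ ≤ _ := h1
      _ = _ := by ring
  · intro n hn
    obtain ⟨s, hs1, hs2⟩ := G0_big d κ (r + 2) (by omega) (by omega)
    obtain ⟨a, haa⟩ := Int.eq_ofNat_of_zero_le (hpos (κ + 1))
    obtain ⟨b, hbb⟩ := Int.eq_ofNat_of_zero_le (hpos (κ + 1 + 1))
    have hab : 4 * (κ + 1) * (κ + 2) * b ≤ (r + 2) * ((r + 2) + 4 * κ + 3) * a := by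
      rw [haa, hbb] at h1
      exact_mod_cast h1
    have h5 := gp_ge d h γ h0 hs hp hγ κ
    have hlow : (d + s).choose (κ + 1) ≤ a := by
      have h3 : (((d + s).choose (κ + 1) : ℕ) : ℤ) ≤ (a : ℤ) := by
        have h2 : (a : ℤ) = (gp d h).coeff (κ + 1) := by rw [haa]
        rw [h2]
        exact hs2.trans h5
      exact_mod_cast h3
    rw [haa] at hn
    have hn' : a < (n + 1).choose (κ + 1) := by exact_mod_cast hn
    have hds : d + s ≤ n := by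
      by_contra hc
      have := Nat.choose_le_choose (κ + 1) (by omega : n + 1 ≤ d + s)
      omega
    have h7 := kk_step κ (r + 2) s n a b hs1 (by omega) hn'.le hab
    rw [hbb]
    exact_mod_cast h7

variable {β : Type} [PartialOrder β] {L : Finset β} {r : β → ℕ}

open Classical in
/-- **The inequalities for the solutions of the recursion.** -/
theorem strong (hS : Sys L r) {g : β → ℤ[X]} (hg0 : ∀ y ∈ L, r y = 0 → g y = 1)
    (hg : ∀ y ∈ L, r y ≠ 0 → g y =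
      trunc (r y - 1) (∑ x ∈ L.filter (fun x => x < y), g x * (X - 1) ^ (r y - 1 - r x)))
    {y : β} (hy : y ∈ L) {d : ℕ} (hd : r y = d + 1) (γ : ℕ → ℤ)
    (hγ : ∑ i ∈ range (d + 1), C (((L.filter fun x => x ≤ y ∧ r x = i + 1).card : ℕ) : ℤ) *
      ((X : ℤ[X]) - 1) ^ i =
      ∑ j ∈ range (d / 2 + 1), C (γ j) * (X ^ j * (1 + X) ^ (d - 2 * j)))
    (hpos : ∀ j, j ≤ d / 2 → 0 ≤ γ j) :
    (∀ k, 1 ≤ k → k ≤ d / 2 →
      ((d.choose (k - 1) * (d - k - 1).choose (k - 1) * 2 ^ (d - 2 * k) : ℕ) : ℤ) ≤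
        (k : ℤ) * (g y).coeff k) ∧
    ∀ k, 1 ≤ k → k + 1 ≤ d / 2 →
      4 * (k : ℤ) * (k + 1) * (g y).coeff (k + 1) ≤
        ((d : ℤ) - 2 * k) * (d + 2 * k - 1) * (g y).coeff k ∧
      ∀ n : ℕ, (g y).coeff k < (((n + 1).choose k : ℕ) : ℤ) →
        (g y).coeff (k + 1) ≤ ((n.choose (k + 1) : ℕ) : ℤ) := by
  have hv : ∀ y, ∃ h : ℕ → ℤ, y ∈ L → 1 ≤ r y → h 0 = 1 ∧ (∀ i, i ≤ r y - 1 → h (r y - 1 - i) = h i) ∧
      ∀ i, ((L.filter fun x => x ≤ y ∧ r x = i + 1).card : ℤ) =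
        ∑ j ∈ range (r y - 1 + 1), h j * (j.choose i : ℤ) := by
    intro y
    by_cases hy : y ∈ L ∧ 1 ≤ r y
    · obtain ⟨h, h1⟩ := hS.hv y hy.1 (r y - 1) (by omega)
      exact ⟨h, fun _ _ => h1⟩
    · exact ⟨0, fun h1 h2 => absurd ⟨h1, h2⟩ hy⟩
  choose H hH using hv
  have key := hS.tg_eq (H := H) (fun y hy h1 => (hH y hy h1).1) (fun y hy h1 => (hH y hy h1).2.1)
    (fun y hy e he i => by
      have h1 := (hH y hy (by omega)).2.2 i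
      have e1 : r y - 1 + 1 = e + 1 := by omega
      rw [e1] at h1
      exact h1) (d + 1) y hy (by omega)
  have e0 : r y - 1 = d := by omega
  have hgy : g y = gp d (H y) := by
    rw [hS.unique hg0 hg (d + 1) y hy (by omega), key, if_neg (by omega), e0]
  obtain ⟨h1, h2, h3⟩ := hH y hy (by omega)
  rw [e0] at h2 h3
  rw [hgy]
  have h4 : ∀ i, i ≤ d → H y i = ∑ j ∈ range (d / 2 + 1),
      if j ≤ i then γ j * ((d - 2 * j).choose (i - j) : ℤ) else 0 := by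
    apply gamma_coeff
    rw [← hγ]
    exact (h_poly d (H y) _ h3).symm
  exact ⟨gp_lower d (H y) γ h1 h2 h4 hpos, gp_strong d (H y) γ h1 h2 h4 hpos⟩

end Pool.Agent.KS6_44.TK
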